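import Pool.Agent.BEng.Cls

set_option autoImplicit false

/-!
# MP_bcf00e_al: boundedly Engel elements and left 3-Engel elements

For a group `G` let `B(G)` be the set of boundedly Engel elements.

* In an arbitrary group, if any `r` conjugates of `a` generate a nilpotent subgroup of class
  bounded in terms of `r`, then `a B(G) ⊆ B(G)` and `B(G) a ⊆ B(G)`.
* If `G` is locally residually (nilpotent without involutions), for instance residually torsion-free
  nilpotent, then every left 3-Engel element `a` has this property, with universal bounds.  So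
  `E B(G) = B(G) = B(G) E`, where `E` is the subgroup generated by all left 3-Engel elements.
-/

namespace Pool.Agent.Results.MP_bcf00e_al.LeftThreeEngel

open Pool.Agent.BEng

universe u

/-- `H` is residually (nilpotent without elements of order two). -/
def Res (H : Type u) [Group H] : Prop :=
  ∀ g : H, g ≠ 1 → ∃ (N : Subgroup H) (_ : N.Normal), g ∉ N ∧ Group.IsNilpotent (H ⧸ N) ∧
    ∀ q : H ⧸ N, q * q = 1 → q = 1

/-- All subgroups of `G` generated by three elements are residually (nilpotent without elements of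
order two). -/
def LocRes (G : Type u) [Group G] : Prop :=
  ∀ a b c : G, Res (Subgroup.closure ({a, b, c} : Set G))

lemma map_iter {G H : Type u} [Group G] [Group H] (φ : G →* H) (x y : G) (k : ℕ) :
    φ ((ec x)^[k] y) = (ec (φ x))^[k] (φ y) := by
  induction k with
  | zero => rfl
  | succ k ih =>
    rw [Function.iterate_succ_apply', Function.iterate_succ_apply', ← ih]
    simp [ec]

/-- the bound -/
noncomputable def bd (c : ℕ → ℕ) (n : ℕ) : ℕ := (n + 1) * c (rr (n + 1) (n + 1)) + (n + 1)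

lemma comm_form {G : Type u} [Group G] {n : ℕ} {a b : G} (h : Eng n (a * b)) : Eng n (b * a) := by
  have h1 := h.conj a⁻¹
  have h2 : a⁻¹ * (a * b) * a⁻¹⁻¹ = b * a := by group
  rwa [h2] at h1

theorem main : ∃ f : ℕ → ℕ, ∀ (G : Type u) [Group G], LocRes G → ∀ (a b : G) (n : ℕ),
    Eng 3 a → Eng n b → Eng (f n) (a * b) ∧ Eng (f n) (b * a) := by
  obtain ⟨c, hc⟩ := cls_bound.{u}
  refine ⟨bd c, ?_⟩
  intro G _ hG a b n ha hb
  suffices h : Eng (bd c n) (a * b) from ⟨h, comm_form h⟩
  intro h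
  by_contra hz
  set H := Subgroup.closure ({a, b, h} : Set G) with hH
  have haH : a ∈ H := Subgroup.subset_closure (by simp)
  have hbH : b ∈ H := Subgroup.subset_closure (by simp)
  have hhH : h ∈ H := Subgroup.subset_closure (by simp)
  set a' : H := ⟨a, haH⟩ with ha'
  set b' : H := ⟨b, hbH⟩ with hb'
  set h' : H := ⟨h, hhH⟩ with hh'
  have hsub : ∀ (x y : H) (k : ℕ), (((ec x)^[k] y : H) : G) = (ec (x : G))^[k] (y : G) :=
    fun x y k => map_iter H.subtype x y k
  have hEa : Eng 3 a' := by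
    intro y
    apply Subtype.ext
    rw [hsub]
    exact ha y
  have hEb : Eng (n + 1) b' := by
    refine Eng.mono (n := n) ?_ (Nat.le_succ n)
    intro y
    apply Subtype.ext
    rw [hsub]
    exact hb y
  have hz' : (ec (a' * b'))^[bd c n] h' ≠ 1 := by
    intro h1
    apply hz
    have h2 := congrArg (Subtype.val) h1
    rw [hsub] at h2
    exact h2
  obtain ⟨N, hN, h1, h2, h3⟩ := hG a b h _ hz'
  have hquot : ∀ (k : ℕ) (x : H), Eng k x → Eng k ((QuotientGroup.mk' N) x) := by
    intro k x hx q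
    obtain ⟨y, rfl⟩ := QuotientGroup.mk'_surjective N q
    rw [← map_iter, hx y, map_one]
  have h4 := main_lemma ((QuotientGroup.mk' N) a') ((QuotientGroup.mk' N) b') (n + 1)
    (Nat.succ_le_succ (Nat.zero_le n)) (hquot _ _ hEb) (c (rr (n + 1) (n + 1)))
    (hc (H ⧸ N) h2 h3 _ (hquot _ _ hEa) _)
  have h5 := h4 ((QuotientGroup.mk' N) h')
  rw [← map_mul, ← map_iter] at h5
  apply h1
  have h6 : (QuotientGroup.mk' N) ((ec (a' * b'))^[bd c n] h') = 1 := h5
  exact (QuotientGroup.eq_one_iff _).mp h6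

theorem general (G : Type u) [Group G] (a b : G) (ha : ∀ r : ℕ, ∃ k : ℕ, Cls a r k)
    (hb : BddEng b) : BddEng (a * b) ∧ BddEng (b * a) := by
  obtain ⟨n, hn, hE⟩ := hb
  obtain ⟨k, hk⟩ := ha (rr n n)
  have h := main_lemma a b n hn hE k hk
  exact ⟨⟨_, by omega, h⟩, ⟨_, by omega, comm_form h⟩⟩

/-- `G` is residually torsion-free nilpotent. -/
def ResTFN (G : Type u) [Group G] : Prop :=
  ∀ g : G, g ≠ 1 → ∃ (N : Subgroup G) (_ : N.Normal), g ∉ N ∧ Group.IsNilpotent (G ⧸ N) ∧
    ∀ q : G ⧸ N, q ≠ 1 → ∀ k : ℕ, 0 < k → q ^ k ≠ 1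

lemma ResTFN.locRes {G : Type u} [Group G] (hG : ResTFN G) : LocRes G := by
  intro a b c
  set H := Subgroup.closure ({a, b, c} : Set G) with hH
  intro g hg
  have hg' : (g : G) ≠ 1 := fun h => hg (Subtype.ext h)
  obtain ⟨N, hN, h1, h2, h3⟩ := hG g hg'
  set φ : H →* G ⧸ N := (QuotientGroup.mk' N).comp H.subtype with hφ
  have hinj := QuotientGroup.kerLift_injective φ
  refine ⟨φ.ker, inferInstance, ?_, ?_, ?_⟩
  · intro h4
    rw [MonoidHom.mem_ker] at h4
    exact h1 ((QuotientGroup.eq_one_iff _).mp h4)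
  · obtain ⟨k, hk⟩ := (Subgroup.nilpotent_iff_lowerCentralSeries (G := G ⧸ N)).mp h2
    rw [Subgroup.nilpotent_iff_lowerCentralSeries]
    refine ⟨k, ?_⟩
    have h5 := Subgroup.map_lowerCentralSeries (⊤ : Subgroup (H ⧸ φ.ker))
      (QuotientGroup.kerLift φ) k
    have h6 : ((⊤ : Subgroup (H ⧸ φ.ker)).map (QuotientGroup.kerLift φ)).lowerCentralSeries k ≤
        ⊥ := by
      rw [← hk]
      exact Subgroup.lowerCentralSeries_mono k le_top
    rw [← h5] at h6
    rw [eq_bot_iff]
    intro q hq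
    have h7 := h6 ⟨q, hq, rfl⟩
    rw [Subgroup.mem_bot] at h7 ⊢
    exact hinj (by rw [h7, map_one])
  · intro q hq
    by_contra hne
    have h5 : QuotientGroup.kerLift φ q ≠ 1 := fun h => hne (hinj (by rw [h, map_one]))
    refine h3 _ h5 2 (by norm_num) ?_
    rw [← map_pow, pow_two, hq, map_one]

/-- If `P` is closed under inverses and multiplication by elements of `P` preserves boundedly Engel
elements, then the same holds for the subgroup generated by `P`. -/
lemma gen_closure {G : Type u} [Group G] (P : G → Prop) (hinv : ∀ a, P a → P a⁻¹)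
    (key : ∀ a : G, P a → ∀ b : G, BddEng b → BddEng (a * b) ∧ BddEng (b * a))
    (w : G) (hw : w ∈ Subgroup.closure {a : G | P a}) :
    BddEng w ∧ ∀ b : G, BddEng b → BddEng (w * b) ∧ BddEng (b * w) := by
  have key2 : (∀ b : G, BddEng b → BddEng (w * b) ∧ BddEng (b * w)) ∧
      ∀ b : G, BddEng b → BddEng (w⁻¹ * b) ∧ BddEng (b * w⁻¹) := by
    induction hw using Subgroup.closure_induction with
    | mem a ha => exact ⟨key a ha, key a⁻¹ (hinv a ha)⟩
    | one =>
      constructor
      · intro b hb; simpa using hb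
      · intro b hb; simpa using hb
    | mul x y _ _ hx hy =>
      constructor
      · intro b hb
        constructor
        · rw [mul_assoc]; exact (hx.1 _ (hy.1 b hb).1).1
        · rw [← mul_assoc]; exact (hy.1 _ (hx.1 b hb).2).2
      · intro b hb
        rw [mul_inv_rev]
        constructor
        · rw [mul_assoc]; exact (hy.2 _ (hx.2 b hb).1).1
        · rw [← mul_assoc]; exact (hx.2 _ (hy.2 b hb).2).2
    | inv x _ hx =>
      refine ⟨hx.2, ?_⟩
      rw [inv_inv]; exact hx.1
  refine ⟨?_, key2.1⟩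
  have h1 : BddEng (1 : G) := by
    refine ⟨1, le_refl _, fun y => ?_⟩
    simp [ec]
  simpa using (key2.1 1 h1).1

lemma cls_inv {G : Type u} [Group G] {a : G} {r k : ℕ} (h : Cls a r k) : Cls a⁻¹ r k := by
  classical
  intro S hS hconj
  have h1 := h (S.image fun s => s⁻¹) (Finset.card_image_le.trans hS) (by
    intro s hs
    rw [Finset.mem_image] at hs
    obtain ⟨t, ht, rfl⟩ := hs
    have h2 := hconj t ht
    rw [isConj_iff] at h2 ⊢
    obtain ⟨g, hg⟩ := h2
    exact ⟨g, by rw [← hg]; group⟩)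
  have h2 : Subgroup.closure ((S.image fun s => s⁻¹ : Finset G) : Set G) =
      Subgroup.closure (S : Set G) := by
    rw [← Subgroup.closure_inv (S : Set G)]
    congr 1
    ext z
    simp
  rwa [h2] at h1

/-- The result. -/
theorem result :
    (∀ (G : Type u) [Group G], ∀ w ∈ Subgroup.closure {a : G | ∀ r : ℕ, ∃ k : ℕ, Cls a r k},
      BddEng w ∧ ∀ b : G, BddEng b → BddEng (w * b) ∧ BddEng (b * w)) ∧
    (∃ f : ℕ → ℕ, ∀ (G : Type u) [Group G], LocRes G → ∀ (a b : G) (n : ℕ),
      Eng 3 a → Eng n b → Eng (f n) (a * b) ∧ Eng (f n) (b * a)) ∧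
    (∀ (G : Type u) [Group G], LocRes G ∨ ResTFN G →
      ∀ w ∈ Subgroup.closure {a : G | Eng 3 a},
      BddEng w ∧ ∀ b : G, BddEng b → BddEng (w * b) ∧ BddEng (b * w)) := by
  refine ⟨?_, main, ?_⟩
  · intro G _ w hw
    refine gen_closure (fun a => ∀ r : ℕ, ∃ k : ℕ, Cls a r k) ?_ (fun a ha b hb => general G a b ha hb) w hw
    intro a ha r
    obtain ⟨k, hk⟩ := ha r
    exact ⟨k, cls_inv hk⟩
  · intro G _ hG' w hw
    have hG : LocRes G := hG'.elim id ResTFN.locRes
    obtain ⟨f, hf⟩ := main.{u}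
    refine gen_closure (fun a => Eng 3 a) (fun a ha => eng3_inv ha) ?_ w hw
    rintro a ha b ⟨n, hn, hb⟩
    obtain ⟨h1, h2⟩ := hf G hG a b n ha hb
    exact ⟨⟨f n + 1, by omega, h1.mono (Nat.le_succ _)⟩,
      ⟨f n + 1, by omega, h2.mono (Nat.le_succ _)⟩⟩

end Pool.Agent.Results.MP_bcf00e_al.LeftThreeEngel
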